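import Pool.Agent.Q317.ST.Main

/-!
# A transitive Steiner `2`-system whose automorphism group preserves a Steiner `3`-system

`Ω` is the vector space of countable dimension over the field with four elements, the blocks of `B`
are the affine lines and those of `C` the sets of four vectors with sum zero.
-/

set_option autoImplicit false

namespace Pool.Agent.Results.MP_19fe04_lc.LinesAndQuadruples

open Pool.Agent.Q317.ST

/-- **The automorphism group of a Steiner `k`-system can be `k`-transitive and preserve a Steiner
`l`-system with `l ≠ k`.** -/
theorem result : ∃ k l : ℕ, 2 ≤ k ∧ 2 ≤ l ∧ k ≠ l ∧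
    ∃ Ω : Type, Countable Ω ∧ Infinite Ω ∧ ∃ B C : Set (Set Ω),
      IsSteiner k B ∧ AutTransitive k B ∧ IsSteiner l C ∧
        ∀ g : Equiv.Perm Ω, Preserves g B → Preserves g C :=
  main

end Pool.Agent.Results.MP_19fe04_lc.LinesAndQuadruples
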